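import Mathlib

set_option autoImplicit false

namespace Pool.Agent.Results.MP_3951c0_co.Disproof

/-- A broadcast: `f v` is at most the eccentricity of `v`. -/
def IsBroadcast {V : Type} (G : SimpleGraph V) (f : V → ℕ) : Prop :=
  ∀ v, ∃ u, f v ≤ G.dist u v

def Dominating {V : Type} (G : SimpleGraph V) (f : V → ℕ) : Prop :=
  ∀ u, ∃ v, 0 < f v ∧ G.dist u v ≤ f v

def MinimalDominating {V : Type} (G : SimpleGraph V) (f : V → ℕ) : Prop :=
  IsBroadcast G f ∧ Dominating G f ∧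
    ∀ g, IsBroadcast G g → (∀ v, g v ≤ f v) → g ≠ f → ¬ Dominating G g

/-- The costs of minimal dominating broadcasts; `Γ_b` is the greatest element. -/
def costs {V : Type} [Fintype V] (G : SimpleGraph V) : Set ℕ :=
  {k | ∃ f, MinimalDominating G f ∧ ∑ v, f v = k}

lemma dist_of {V : Type} (G : SimpleGraph V) (D : V → V → ℕ) (h0 : ∀ u, D u u = 0)
    (h1 : ∀ u v, D u v = 0 → u = v) (h2 : ∀ u w, G.Adj u w → ∀ v, D u v ≤ D w v + 1)
    (h3 : ∀ u v, D u v ≠ 0 → ∃ w, G.Adj u w ∧ D w v + 1 = D u v) :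
    (∀ u v, G.Reachable u v) ∧ ∀ u v, G.dist u v = D u v := by
  have ex : ∀ n u v, D u v = n → ∃ p : G.Walk u v, p.length = n := by
    intro n
    induction n with
    | zero => intro u v h; obtain rfl := h1 u v h; exact ⟨.nil, rfl⟩
    | succ n ih =>
      intro u v h
      obtain ⟨w, ha, hw⟩ := h3 u v (by omega)
      obtain ⟨p, hp⟩ := ih w v (by omega)
      exact ⟨.cons ha p, by simp [hp]⟩
  have ge : ∀ u v (p : G.Walk u v), D u v ≤ p.length := by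
    intro u v p
    induction p with
    | nil => simp [h0]
    | cons ha p ih => exact (h2 _ _ ha _).trans (by simpa using ih)
  refine ⟨fun u v => (ex _ u v rfl).elim fun p _ => ⟨p⟩, fun u v => ?_⟩
  obtain ⟨p, hp⟩ := ex _ u v rfl
  apply le_antisymm
  · rw [← hp]; exact SimpleGraph.dist_le p
  · obtain ⟨q, hq⟩ := SimpleGraph.Reachable.exists_walk_length_eq_dist ⟨p⟩
    rw [← hq]; exact ge u v q

def DH : Fin 8 → Fin 8 → ℕ :=
  ![![0, 1, 2, 1, 2, 3, 2, 3], ![1, 0, 1, 2, 1, 2, 3, 3], ![2, 1, 0, 3, 2, 3, 4, 4], ![1, 2, 3, 0, 1, 2, 1, 2], ![2, 1, 2, 1, 0, 1, 2, 2], ![3, 2, 3, 2, 1, 0, 1, 1], ![2, 3, 4, 1, 2, 1, 0, 1], ![3, 3, 4, 2, 2, 1, 1, 0]]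

def DG (u v : Fin 7) : ℕ := DH u.castSucc v.castSucc

def H0 : SimpleGraph (Fin 8) where
  Adj u v := DH u v = 1
  symm := ⟨by decide +kernel⟩
  loopless := ⟨by decide +kernel⟩

def G0 : SimpleGraph (Fin 7) where
  Adj u v := DG u v = 1
  symm := ⟨by decide +kernel⟩
  loopless := ⟨by decide +kernel⟩

instance : DecidableRel H0.Adj := fun u v => inferInstanceAs (Decidable (DH u v = 1))
instance : DecidableRel G0.Adj := fun u v => inferInstanceAs (Decidable (DG u v = 1))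

lemma hH : (∀ u v, H0.Reachable u v) ∧ ∀ u v, H0.dist u v = DH u v :=
  dist_of H0 DH (by decide +kernel) (by decide +kernel) (by decide +kernel) (by decide +kernel)

lemma hG : (∀ u v, G0.Reachable u v) ∧ ∀ u v, G0.dist u v = DG u v :=
  dist_of G0 DG (by decide +kernel) (by decide +kernel) (by decide +kernel) (by decide +kernel)

lemma min_iff {V : Type} [DecidableEq V] (G : SimpleGraph V) (f : V → ℕ) :
    MinimalDominating G f ↔ IsBroadcast G f ∧ Dominating G f ∧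
      ∀ v, 0 < f v → ¬ Dominating G (fun w => if w = v then f w - 1 else f w) := by
  constructor
  · rintro ⟨h1, h2, h3⟩
    refine ⟨h1, h2, fun v hv => h3 _ (fun w => ?_) (fun w => ?_) (fun h => ?_)⟩
    · obtain ⟨u, hu⟩ := h1 w
      exact ⟨u, by split_ifs <;> omega⟩
    · split_ifs <;> omega
    · have := congrFun h v
      simp only [if_true] at this
      omega
  · rintro ⟨h1, h2, h3⟩
    refine ⟨h1, h2, fun g _ hg hne hd => ?_⟩
    obtain ⟨v, hv⟩ := Function.ne_iff.mp hne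
    have := hg v
    refine h3 v (by omega) (fun u => ?_)
    obtain ⟨w, a1, a2⟩ := hd u
    have := hg w
    refine ⟨w, ?_⟩
    simp only
    split_ifs with h
    · subst h; omega
    · omega

def Dm (D : Fin 8 → Fin 8 → ℕ) (f : Fin 8 → ℕ) : Prop := ∀ u, ∃ v, 0 < f v ∧ D u v ≤ f v

def ec : Fin 8 → ℕ := ![3, 3, 4, 3, 2, 3, 4, 4]

def cd : Fin 8 → ℕ := ![4284418816, 4282324736, 1058473472, 4294662400, 4294916608, 4294635520, 4227459072, 4227391488]

def bl (c k : ℕ) : ℕ := (c >>> (8 * k)) % 256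

lemma bl_spec : ∀ v : Fin 8, ∀ k < 4, ∀ u : Fin 8,
    (bl (cd v) k).testBit u.val = decide (0 < k ∧ DH u v ≤ k) := by decide +kernel

def dom (a0 a1 a2 a3 a4 a5 a6 a7 : ℕ) : Bool :=
  (bl 4284418816 a0 ||| bl 4282324736 a1 ||| bl 1058473472 a2 ||| bl 4294662400 a3 ||| bl 4294916608 a4 ||| bl 4294635520 a5 ||| bl 4227459072 a6 ||| bl 4227391488 a7) == 255

lemma dom_iff (f : Fin 8 → ℕ) (h : ∀ v, f v < 4) :
    dom (f 0) (f 1) (f 2) (f 3) (f 4) (f 5) (f 6) (f 7) = true ↔ Dm DH f := by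
  have key : ∀ u : Fin 8, (bl (cd 0) (f 0) ||| bl (cd 1) (f 1) ||| bl (cd 2) (f 2) ||| bl (cd 3) (f 3) ||| bl (cd 4) (f 4) ||| bl (cd 5) (f 5) ||| bl (cd 6) (f 6) ||| bl (cd 7) (f 7)).testBit u.val = true ↔
      ∃ v, 0 < f v ∧ DH u v ≤ f v := by
    intro u
    simp only [Nat.testBit_or, bl_spec _ _ (h _), Bool.or_eq_true, decide_eq_true_eq,
      Fin.exists_fin_succ, Fin.exists_fin_zero, or_false, or_assoc]
    rfl
  have hb : ∀ c k, bl c k < 2 ^ 8 := fun c k => Nat.mod_lt _ (by norm_num)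
  show ((bl (cd 0) (f 0) ||| bl (cd 1) (f 1) ||| bl (cd 2) (f 2) ||| bl (cd 3) (f 3) ||| bl (cd 4) (f 4) ||| bl (cd 5) (f 5) ||| bl (cd 6) (f 6) ||| bl (cd 7) (f 7)) == 255) = true ↔ _
  rw [beq_iff_eq]
  constructor
  · intro e u
    rw [← key, e]
    revert u
    decide +kernel
  · intro e
    apply Nat.eq_of_testBit_eq
    intro i
    by_cases hi : i < 8
    · rw [(key ⟨i, hi⟩).mpr (e ⟨i, hi⟩)]
      interval_cases i <;> rfl
    · have h1 : (2 : ℕ) ^ 8 ≤ 2 ^ i := Nat.pow_le_pow_right (by norm_num) (by omega)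
      rw [Nat.testBit_lt_two_pow, Nat.testBit_lt_two_pow]
      · omega
      · refine lt_of_lt_of_le ?_ h1
        repeat' apply Nat.or_lt_two_pow
        all_goals exact hb _ _

def al (n : ℕ) (p : ℕ → Bool) : Bool := (List.range n).all p

lemma al_spec {n : ℕ} {p : ℕ → Bool} (h : al n p = true) (i : ℕ) (hi : i < n) : p i = true :=
  List.all_eq_true.mp h i (List.mem_range.mpr hi)

def chk : Bool :=
  al 3 fun a0 => al 3 fun a1 => al 4 fun a2 => al 3 fun a3 => al 2 fun a4 => al 3 fun a5 => al 4 fun a6 => al 4 fun a7 =>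
    Nat.ble (a0 + a1 + a2 + a3 + a4 + a5 + a6 + a7) 4 || !dom a0 a1 a2 a3 a4 a5 a6 a7 ||
    (Nat.blt 0 a0 && dom (a0 - 1) a1 a2 a3 a4 a5 a6 a7) ||
    (Nat.blt 0 a1 && dom a0 (a1 - 1) a2 a3 a4 a5 a6 a7) ||
    (Nat.blt 0 a2 && dom a0 a1 (a2 - 1) a3 a4 a5 a6 a7) ||
    (Nat.blt 0 a3 && dom a0 a1 a2 (a3 - 1) a4 a5 a6 a7) ||
    (Nat.blt 0 a4 && dom a0 a1 a2 a3 (a4 - 1) a5 a6 a7) ||
    (Nat.blt 0 a5 && dom a0 a1 a2 a3 a4 (a5 - 1) a6 a7) ||
    (Nat.blt 0 a6 && dom a0 a1 a2 a3 a4 a5 (a6 - 1) a7) ||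
    (Nat.blt 0 a7 && dom a0 a1 a2 a3 a4 a5 a6 (a7 - 1))

lemma chk_true : chk = true := by decide +kernel

lemma up (f : Fin 8 → ℕ) (e : ∀ v, f v < ec v) (hs : ¬ ∑ v, f v ≤ 4) (hd : Dm DH f) :
    ∃ v, 0 < f v ∧ Dm DH (fun w => if w = v then f w - 1 else f w) := by
  have h4 : ∀ v, f v < 4 := fun v => lt_of_lt_of_le (e v) (by revert v; decide +kernel)
  have := al_spec (al_spec (al_spec (al_spec (al_spec (al_spec (al_spec (al_spec chk_true
    _ (e 0)) _ (e 1)) _ (e 2)) _ (e 3)) _ (e 4)) _ (e 5)) _ (e 6)) _ (e 7)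
  rw [(dom_iff f h4).mpr hd] at this
  rw [Fin.sum_univ_eight] at hs
  have g : ∀ v w, (if w = v then f w - 1 else f w) < 4 := by
    intro v w
    have := h4 w
    split_ifs <;> omega
  simp only [Bool.or_eq_true, Bool.and_eq_true, Nat.ble_eq, Nat.blt_eq, hs, Bool.not_true,
    Bool.false_eq_true, false_or, or_assoc] at this
  rcases this with h | h | h | h | h | h | h | h
  · exact ⟨0, h.1, (dom_iff _ (g 0)).mp h.2⟩
  · exact ⟨1, h.1, (dom_iff _ (g 1)).mp h.2⟩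
  · exact ⟨2, h.1, (dom_iff _ (g 2)).mp h.2⟩
  · exact ⟨3, h.1, (dom_iff _ (g 3)).mp h.2⟩
  · exact ⟨4, h.1, (dom_iff _ (g 4)).mp h.2⟩
  · exact ⟨5, h.1, (dom_iff _ (g 5)).mp h.2⟩
  · exact ⟨6, h.1, (dom_iff _ (g 6)).mp h.2⟩
  · exact ⟨7, h.1, (dom_iff _ (g 7)).mp h.2⟩

lemma hec : ∀ u v, DH u v ≤ ec v ∧ 0 < ec v ∧ ec v ≤ 4 := by decide +kernel

lemma upper : ∀ k ∈ costs H0, k ≤ 4 := by
  rintro k ⟨f, hf, rfl⟩
  rw [min_iff] at hf
  obtain ⟨h1, h2, h3⟩ := hf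
  simp only [IsBroadcast, Dominating, hH.2] at h1 h2 h3
  by_cases e : ∀ v, f v < ec v
  · by_contra hlt
    obtain ⟨v, hv, hd⟩ := up f e hlt h2
    exact h3 v hv hd
  · push Not at e
    obtain ⟨v, hv⟩ := e
    rw [Finset.sum_eq_single v]
    · obtain ⟨u, hu⟩ := h1 v
      have := hec u v
      omega
    · intro w _ hw
      by_contra h0
      refine h3 w (by omega) (fun u => ⟨v, ?_⟩)
      have := hec u v
      rw [if_neg (Ne.symm hw)]
      omega
    · simp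

theorem result :
    ∃ (V W : Type) (_ : Fintype V) (_ : Fintype W) (G : SimpleGraph V) (H : SimpleGraph W)
      (φ : V → W), G.Connected ∧ H.Connected ∧ Function.Injective φ ∧
      (∀ u v, G.Adj u v → H.Adj (φ u) (φ v)) ∧ (∀ u v, G.dist u v = H.dist (φ u) (φ v)) ∧
      ∃ a ∈ costs G, ∀ b ∈ costs H, b < a := by
  refine ⟨Fin 7, Fin 8, inferInstance, inferInstance, G0, H0, Fin.castSucc, ⟨hG.1⟩, ⟨hH.1⟩,
    Fin.castSucc_injective 7, fun u v h => h, fun u v => by rw [hG.2, hH.2]; rfl, 5,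
    ⟨![2, 0, 3, 0, 0, 0, 0], ?_, by decide +kernel⟩, fun b hb => by have := upper b hb; omega⟩
  rw [min_iff]
  simp only [IsBroadcast, Dominating, hG.2]
  decide +kernel

end Pool.Agent.Results.MP_3951c0_co.Disproof
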